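import Pool.Agent.H39.Mot.Main

/-!
# Serre classes of motives and schemes made of torus schemes of small complexity
-/

set_option autoImplicit false

open CategoryTheory CategoryTheory.Limits AlgebraicGeometry Pool.Agent.Y116.UV Pool.Agent.Z125.UN
  Pool.Agent.Q193.LT Pool.Agent.W5h68.SP Pool.Agent.H39 Pool.Agent.H39.Mot

universe v u

namespace Pool.Agent.H95.FM

variable {k : Type} [Field k] [PerfectField k]

/-- **Finitely many varieties, for all Serre classes.** -/
theorem fin_data {Q : Sch k → Prop} (hQ : H89.Dev.IsClass Q) {n : ℕ}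
    (hM : H89.Dev.ModelsIn Q n) (G : Sch k → Prop) (X : Sch k) (hX : Made G n X) :
    ∃ 𝒴 : List (Sch k), (∀ Y ∈ 𝒴, (Q Y ∧ topologicalKrullDim Y.left ≤ n) ∨ G Y) ∧
      ∀ (A : Type u) [Category.{v} A] [Abelian A] (D : CompactData k A), IsCompact D →
        ∀ S : A → Prop, IsTateSerre D S → (∀ i, S (D.H i (aff k k))) →
          (∀ Y ∈ 𝒴, ∀ i, S (D.H i Y)) → ∀ i, S (D.H i X) := by
  have hZ : ∀ θ : Data.{v, u} k, Bnd True fun X => ∀ i, θ.S (θ.D.H i X) := fun θ =>
    bnd_compact θ.hD θ.hS θ.point
  have hb := bnd_finGen (R := fun Y => (Q Y ∧ topologicalKrullDim Y.left ≤ n) ∨ G Y) hZ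
  obtain ⟨L, h1, h2⟩ := made_bnd hb (fun Y hY => FinGen.gen (Or.inr hY))
    (fun Y hY => H89.Dev.built_of_class hb hQ hM
      (fun Y hY hn => FinGen.gen (Or.inl ⟨hY, hn⟩)) Y hY) X hX
  exact ⟨L, h1, fun A _ _ D hD S hS h0 h3 => h2 ⟨A, D, hD, S, hS, h0⟩ h3⟩

variable {A : Type u} [Category.{v} A] [Abelian A] {D : CompactData k A}

/-- A Serre class which contains the motives of the smooth projective schemes of dimension at most `n`
and of the schemes with `G` contains those of the schemes made of `G` and torus schemes. -/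
theorem made_serre (h : IsMotives D) {S : A → Prop} (hS : IsTateSerre D S) {G : Sch k → Prop} {n : ℕ}
    (h1 : ∀ Y : Sch k, SmoothProj Y → topologicalKrullDim Y.left ≤ n → ∀ i, S (D.H i Y))
    (hG : ∀ X, G X → ∀ i, S (D.H i X)) (X : Sch k) (hX : Made G n X) (i : ℤ) : S (D.H i X) := by
  have h0 : ∀ i, S (D.H i (aff k k)) := by
    refine h.generated n _ hS h1 (aff k k) (ft_aff True) ?_
    rw [topDim_aff, ringKrullDim_eq_zero_of_field]
    exact_mod_cast Nat.zero_le n
  have hb := bnd_compact h.compact hS h0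
  exact made_bnd hb hG ((Pool.Agent.W5h38.TV.dim_iff hb n).mp
    (fun X hX _ hn => h.generated n _ hS h1 X hX hn)) X hX i

/-- smooth projective schemes of dimension at most `n` are made of torus schemes -/
lemma made_of_proj {G : Sch k → Prop} {n : ℕ} {Y : Sch k} (hY : SmoothProj Y)
    (hn : topologicalKrullDim Y.left ≤ n) {P : Sch k → Prop} (hP : Bnd True P)
    (h : ∀ X, Made G n X → P X) : P Y :=
  (Pool.Agent.W5h38.TV.dim_iff hP n).mpr (fun X hX => h X (made_of_built hX)) Y hY.ft hY.smooth hn

attribute [local instance] Abelian.hasFiniteBiproducts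

omit [PerfectField k] in
lemma serre_biproduct {S : A → Prop} (hS : IsSerre S) (J : Type) [Finite J] :
    ∀ f : J → A, (∀ j, S (f j)) → S (⨁ f) := by
  refine Finite.induction_empty_option
    (P := fun J => ∀ [Finite J] (f : J → A), (∀ j, S (f j)) → S (⨁ f)) ?_ ?_ ?_ J
  · intro α β e ih _ f hf
    have : Finite α := Finite.of_equiv β e.symm
    exact hS.iso (biproduct.reindex e f) (ih (f ∘ e) fun j => hf (e j))
  · intro _ f _
    refine hS.zero _ ?_
    rw [IsZero.iff_id_eq_zero]
    ext j
    exact j.elim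
  · intro α _ ih _ f hf
    let g : ⨁ f ⟶ f none ⊞ ⨁ fun a => f (some a) :=
      biprod.lift (biproduct.π f none) (biproduct.lift fun a => biproduct.π f (some a))
    have hg : Mono g := by
      refine ⟨fun {Z} a b w => ?_⟩
      ext j
      rcases j with _ | j
      · have h1 := congrArg (· ≫ biprod.fst) w
        simpa [g] using h1
      · have h1 := congrArg (· ≫ biprod.snd ≫ biproduct.π _ j) w
        simpa [g] using h1
    exact hS.of_mono g (hS.biprod (hf none) (ih _ fun a => hf (some a)))

omit [PerfectField k] in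
/-- Direct factors of finite direct sums of twists of objects in a Serre class. -/
theorem gen_le {S G : A → Prop} (hS : IsTateSerre D S) (h : ∀ M, G M → S M) {N : A}
    (hN : FactorOfSum D G N) : S N := by
  obtain ⟨J, _, M, a, i, r, hG, hir⟩ := hN.retract
  have : Mono i := mono_of_mono_fac hir
  exact hS.toIsSerre.of_mono i
    (serre_biproduct hS.toIsSerre J _ fun j => hS.twist _ _ (h _ (hG j)))

end Pool.Agent.H95.FM
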